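import Pool.Agent.H525.SH.Stm

set_option autoImplicit false

/-! # The prime ideals above a prime number (helper784 for helper525) -/

namespace Pool.Agent.H784.SH

open Finset NumberField
open Pool.Agent.H525.SH

section

variable {K : Type} [Field K] [NumberField K] {p : ℕ}

theorem cast_ne (hp : p.Prime) : ((p : ℕ) : 𝓞 K) ≠ 0 := Nat.cast_ne_zero.2 hp.ne_zero

theorem span_ne (hp : p.Prime) : Ideal.span {((p : ℕ) : 𝓞 K)} ≠ ⊥ := by
  rw [Ne, Ideal.span_singleton_eq_bot]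
  exact cast_ne hp

theorem mem_PA (hp : p.Prime) (P : Ideal (𝓞 K)) :
    P ∈ PA K p ↔ P.IsPrime ∧ ((p : ℕ) : 𝓞 K) ∈ P := by
  unfold PA
  rw [Multiset.mem_toFinset, Ideal.mem_normalizedFactors_iff (span_ne hp),
    Ideal.span_singleton_le_iff_mem]

theorem norm_cast : (Algebra.norm ℤ ((p : ℕ) : 𝓞 K)).natAbs = p ^ Module.finrank ℚ K := by
  have h : ((p : ℕ) : 𝓞 K) = algebraMap ℤ (𝓞 K) (p : ℤ) := by simp
  rw [h, Algebra.norm_algebraMap, NumberField.RingOfIntegers.rank, Int.natAbs_pow, Int.natAbs_natCast]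

theorem absNorm_span : Ideal.absNorm (Ideal.span {((p : ℕ) : 𝓞 K)}) = p ^ Module.finrank ℚ K := by
  rw [Ideal.absNorm_span_singleton, norm_cast]

theorem absNorm_dvd {P : Ideal (𝓞 K)} {z : 𝓞 K} (h : z ∈ P) :
    Ideal.absNorm P ∣ (Algebra.norm ℤ z).natAbs := by
  have := Ideal.absNorm_dvd_absNorm_of_le ((Ideal.span_singleton_le_iff_mem P).2 h)
  rwa [Ideal.absNorm_span_singleton] at this

theorem absNorm_PA (hp : p.Prime) {P : Ideal (𝓞 K)} (hP : P ∈ PA K p) :
    ∃ f : ℕ, 1 ≤ f ∧ Ideal.absNorm P = p ^ f := by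
  obtain ⟨h1, h2⟩ := (mem_PA hp P).1 hP
  have h3 := absNorm_dvd h2
  rw [norm_cast, Nat.dvd_prime_pow hp] at h3
  obtain ⟨f, -, hf⟩ := h3
  refine ⟨f, ?_, hf⟩
  rcases Nat.eq_zero_or_pos f with h | h
  · rw [h, pow_zero, Ideal.absNorm_eq_one_iff] at hf
    exact absurd hf h1.ne_top
  · exact h

theorem card_PA (hp : p.Prime) : (PA K p).card ≤ Module.finrank ℚ K := by
  classical
  have h1 : (∏ P ∈ PA K p, P) ∣ Ideal.span {((p : ℕ) : 𝓞 K)} := by
    have e : (∏ P ∈ PA K p, P) = (UniqueFactorizationMonoid.normalizedFactors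
        (Ideal.span {((p : ℕ) : 𝓞 K)})).dedup.prod := by
      unfold PA
      rw [Finset.prod_eq_multiset_prod, Multiset.map_id', Multiset.toFinset_val]
    rw [e]
    refine (Multiset.prod_dvd_prod_of_le (Multiset.dedup_le _)).trans ?_
    exact (UniqueFactorizationMonoid.prod_normalizedFactors (span_ne hp)).dvd
  have h2 : Ideal.absNorm (∏ P ∈ PA K p, P) ∣ p ^ Module.finrank ℚ K := by
    rw [← absNorm_span (K := K) (p := p)]
    exact Ideal.absNorm_dvd_absNorm_of_le (Ideal.dvd_iff_le.1 h1)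
  rw [map_prod] at h2
  have h3 : ∏ P ∈ PA K p, p ∣ ∏ P ∈ PA K p, Ideal.absNorm P := by
    apply Finset.prod_dvd_prod_of_dvd
    intro P hP
    obtain ⟨f, hf, e⟩ := absNorm_PA hp hP
    rw [e]
    exact dvd_pow_self p (by omega)
  rw [Finset.prod_const] at h3
  exact (Nat.pow_dvd_pow_iff_le_right hp.one_lt).1 (h3.trans h2)

theorem mem_of_dvd (hp : p.Prime) {z : 𝓞 K} (h : p ∣ (Algebra.norm ℤ z).natAbs) :
    ∃ P ∈ PA K p, z ∈ P := by
  by_cases htop : Ideal.span {z} ⊔ Ideal.span {((p : ℕ) : 𝓞 K)} = ⊤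
  · exfalso
    rw [← Ideal.span_union, Set.singleton_union, Ideal.eq_top_iff_one, Ideal.mem_span_pair] at htop
    obtain ⟨a, b, hab⟩ := htop
    rcases eq_or_ne z 0 with hz | hz
    · rw [hz, mul_zero, zero_add] at hab
      have h1 : Algebra.norm ℤ b * Algebra.norm ℤ ((p : ℕ) : 𝓞 K) = 1 := by
        rw [← map_mul, hab, map_one]
      have h2 := congrArg Int.natAbs h1
      rw [Int.natAbs_mul, norm_cast, Int.natAbs_one] at h2
      have h3 : p ^ Module.finrank ℚ K = 1 := Nat.eq_one_of_mul_eq_one_left h2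
      have h4 : 0 < Module.finrank ℚ K := Module.finrank_pos
      have h5 : 1 < p ^ Module.finrank ℚ K := Nat.one_lt_pow h4.ne' hp.one_lt
      omega
    · have hne : Ideal.span {z} ≠ ⊥ := by rwa [Ne, Ideal.span_singleton_eq_bot]
      have hcard : p ∣ Nat.card (𝓞 K ⧸ Ideal.span {z}) := by
        have e : Nat.card (𝓞 K ⧸ Ideal.span {z}) = (Algebra.norm ℤ z).natAbs := by
          rw [← Ideal.absNorm_span_singleton]
          rfl
        rw [e]
        exact h
      have : Finite (𝓞 K ⧸ Ideal.span {z}) := Ideal.finiteQuotientOfFreeOfNeBot _ hne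
      have : Fact p.Prime := ⟨hp⟩
      obtain ⟨x, hx⟩ := exists_prime_addOrderOf_dvd_card' p hcard
      obtain ⟨y, rfl⟩ := Ideal.Quotient.mk_surjective x
      have h1 : ((p : ℕ) : 𝓞 K) * y ∈ Ideal.span {z} := by
        rw [← Ideal.Quotient.eq_zero_iff_mem, map_mul, map_natCast, ← nsmul_eq_mul, ← hx]
        exact addOrderOf_nsmul_eq_zero _
      have h2 : y ∈ Ideal.span {z} := by
        have e : y = (a * y) * z + b * (((p : ℕ) : 𝓞 K) * y) := by
          linear_combination (-y) * hab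
        rw [e]
        exact Ideal.add_mem _ (Ideal.mul_mem_left _ _ (Ideal.mem_span_singleton_self z))
          (Ideal.mul_mem_left _ _ h1)
      have h3 : (Ideal.Quotient.mk (Ideal.span {z})) y = 0 := Ideal.Quotient.eq_zero_iff_mem.2 h2
      rw [h3, addOrderOf_zero] at hx
      exact hp.one_lt.ne hx
  · obtain ⟨M, hM, hle⟩ := Ideal.exists_le_maximal _ htop
    refine ⟨M, (mem_PA hp M).2 ⟨hM.isPrime, ?_⟩, ?_⟩
    · exact hle ((le_sup_right : Ideal.span {((p : ℕ) : 𝓞 K)} ≤ _)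
        (Ideal.mem_span_singleton_self _))
    · exact hle ((le_sup_left : Ideal.span {z} ≤ _) (Ideal.mem_span_singleton_self _))

end

theorem t_PAF : Pool.Agent.H525.SH.S_PAF := by
  intro K _ _ p hp
  refine ⟨mem_PA hp, fun P hP => absNorm_PA hp hP, card_PA hp, fun z => ⟨mem_of_dvd hp, ?_⟩⟩
  rintro ⟨P, hP, hz⟩
  obtain ⟨f, hf, e⟩ := absNorm_PA hp hP
  have h := absNorm_dvd hz
  rw [e] at h
  exact (dvd_pow_self p (by omega)).trans h

end Pool.Agent.H784.SH
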